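import Pool.Agent.Helper25.HL.Goals1

/-!
# Project HL, SA2: sampling, bilinear expressions
-/

set_option autoImplicit false

noncomputable section

namespace Pool.Agent.Helper70.HL

open Pool.Agent.Helper25.HL

section prob

variable {ι : Type} [Fintype ι] {N : ℕ} (p : ι → ℝ)

/-- the weight of a sample -/
def wt (J : Fin N → ι) : ℝ := ∏ k, p (J k)

theorem sum_prod (f : Fin N → ι → ℝ) : ∑ J : Fin N → ι, ∏ k, f k (J k) = ∏ k, ∑ j, f k j := by
  classical
  rw [Finset.prod_univ_sum, Fintype.piFinset_univ]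

omit [Fintype ι] in
theorem wt_nonneg (hp : ∀ j, 0 ≤ p j) (J : Fin N → ι) : 0 ≤ wt p J :=
  Finset.prod_nonneg fun _ _ => hp _

theorem sum_wt (h1 : ∑ j, p j = 1) : ∑ J : Fin N → ι, wt p J = 1 := by
  unfold wt
  rw [sum_prod (fun _ j => p j)]
  simp [h1]

open Classical in
theorem marg1 (h1 : ∑ j, p j = 1) (i : Fin N) (a : ι) :
    ∑ J : Fin N → ι, wt p J * (if J i = a then 1 else 0) = p a := by
  have e : ∀ J : Fin N → ι, wt p J * (if J i = a then 1 else 0) =
      ∏ k, (p (J k) * (if k = i then (if J k = a then 1 else 0) else 1)) := by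
    intro J
    unfold wt
    rw [Finset.prod_mul_distrib]
    congr 1
    rw [Finset.prod_ite_eq' Finset.univ i (fun k => if J k = a then (1 : ℝ) else 0)]
    simp
  rw [Finset.sum_congr rfl fun J _ => e J,
    sum_prod (fun k j => p j * (if k = i then (if j = a then 1 else 0) else 1))]
  have e2 : ∀ k : Fin N, ∑ j, p j * (if k = i then (if j = a then (1 : ℝ) else 0) else 1) =
      if k = i then p a else 1 := by
    intro k
    by_cases hk : k = i
    · simp [hk]
    · simp [hk, h1]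
  rw [Finset.prod_congr rfl fun k _ => e2 k, Finset.prod_ite_eq' Finset.univ i (fun _ => p a)]
  simp

open Classical in
theorem marg2 (h1 : ∑ j, p j = 1) (i i' : Fin N) (hi : i ≠ i') (a b : ι) :
    ∑ J : Fin N → ι, wt p J * ((if J i = a then 1 else 0) * (if J i' = b then 1 else 0)) =
      p a * p b := by
  have e : ∀ J : Fin N → ι,
      wt p J * ((if J i = a then 1 else 0) * (if J i' = b then 1 else 0)) =
      ∏ k, (p (J k) * ((if k = i then (if J k = a then 1 else 0) else 1) *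
        (if k = i' then (if J k = b then 1 else 0) else 1))) := by
    intro J
    unfold wt
    rw [Finset.prod_mul_distrib, Finset.prod_mul_distrib]
    rw [Finset.prod_ite_eq' Finset.univ i (fun k => if J k = a then (1 : ℝ) else 0),
      Finset.prod_ite_eq' Finset.univ i' (fun k => if J k = b then (1 : ℝ) else 0)]
    simp
  rw [Finset.sum_congr rfl fun J _ => e J,
    sum_prod (fun k j => p j * ((if k = i then (if j = a then 1 else 0) else 1) *
        (if k = i' then (if j = b then 1 else 0) else 1)))]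
  have e2 : ∀ k : Fin N, ∑ j, p j * ((if k = i then (if j = a then (1 : ℝ) else 0) else 1) *
        (if k = i' then (if j = b then 1 else 0) else 1)) =
      (if k = i then p a else 1) * (if k = i' then p b else 1) := by
    intro k
    by_cases hk : k = i
    · have hk' : k ≠ i' := fun h => hi (hk.symm.trans h)
      simp [hk, hi]
    · by_cases hk' : k = i'
      · simp [hk', Ne.symm hi]
      · simp [hk, hk', h1]
  rw [Finset.prod_congr rfl fun k _ => e2 k, Finset.prod_mul_distrib,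
    Finset.prod_ite_eq' Finset.univ i (fun _ => p a),
    Finset.prod_ite_eq' Finset.univ i' (fun _ => p b)]
  simp

theorem ex1 {V : Type} [AddCommGroup V] [Module ℝ V] (h1 : ∑ j, p j = 1) (i : Fin N)
    (F : ι → V) : ∑ J : Fin N → ι, wt p J • F (J i) = ∑ a, p a • F a := by
  classical
  have e : ∀ J : Fin N → ι, wt p J • F (J i) =
      ∑ a, (wt p J * (if J i = a then 1 else 0)) • F a := by
    intro J
    simp
  rw [Finset.sum_congr rfl fun J _ => e J, Finset.sum_comm]
  refine Finset.sum_congr rfl fun a _ => ?_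
  rw [← Finset.sum_smul, marg1 p h1 i a]

theorem ex2 (h1 : ∑ j, p j = 1) (i i' : Fin N) (hi : i ≠ i') (F : ι → ι → ℝ) :
    ∑ J : Fin N → ι, wt p J * F (J i) (J i') = ∑ a, ∑ b, p a * p b * F a b := by
  classical
  have e : ∀ J : Fin N → ι, wt p J * F (J i) (J i') =
      ∑ a, ∑ b, (wt p J * ((if J i = a then 1 else 0) * (if J i' = b then 1 else 0))) * F a b := by
    intro J
    simp
  rw [Finset.sum_congr rfl fun J _ => e J, Finset.sum_comm]
  refine Finset.sum_congr rfl fun a _ => ?_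
  rw [Finset.sum_comm]
  refine Finset.sum_congr rfl fun b _ => ?_
  rw [← Finset.sum_mul, marg2 p h1 i i' hi a b]

end prob

theorem sq_nonneg' {τ : Type} [Fintype τ] (x : τ → ℂ) : 0 ≤ Helper25.HL.sq x :=
  Finset.sum_nonneg fun _ _ => by positivity

theorem ip_le {τ : Type} [Fintype τ] (x y : τ → ℂ) :
    ‖ip x y‖ ≤ Real.sqrt (Helper25.HL.sq x) * Real.sqrt (Helper25.HL.sq y) := by
  have h1 : ‖ip x y‖ ≤ ∑ t, ‖x t‖ * ‖y t‖ := by
    unfold ip
    refine (norm_sum_le _ _).trans (Finset.sum_le_sum fun t _ => ?_)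
    rw [norm_mul, RCLike.norm_conj]
  have h2 : (∑ t, ‖x t‖ * ‖y t‖) ^ 2 ≤ Helper25.HL.sq x * Helper25.HL.sq y := Finset.sum_mul_sq_le_sq_mul_sq _ _ _
  have h3 : 0 ≤ ∑ t, ‖x t‖ * ‖y t‖ := Finset.sum_nonneg fun _ _ => by positivity
  rw [← Real.sqrt_mul (sq_nonneg' x)]
  exact h1.trans (Real.le_sqrt_of_sq_le h2)

section main

variable {ι τ : Type} [Fintype ι] [Fintype τ] {q N : ℕ}

open Classical in
/-- the indices whose support meets another support -/
def Bd (supp : ι → Finset (Fin q)) (J : Fin N → ι) : Finset (Fin N) :=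
  Finset.univ.filter fun i => ∃ i', i ≠ i' ∧ ¬ Disjoint (supp (J i)) (supp (J i'))

omit [Fintype ι] in
theorem good (supp : ι → Finset (Fin q)) (J : Fin N → ι) : DisjOn supp J (Bd supp J)ᶜ := by
  classical
  intro i hi i' _ hne
  by_contra h
  rw [Finset.mem_compl] at hi
  exact hi (Finset.mem_filter.2 ⟨Finset.mem_univ _, i', hne, h⟩)

omit [Fintype ι] in
theorem pointwise (supp : ι → Finset (Fin q)) (C E : ℝ) (g h : ι → τ → ℂ)
    (hC : ∀ j, Helper25.HL.sq (g j) ≤ C)
    (hE : ∀ (J : Fin N → ι) (I : Finset (Fin N)), DisjOn supp J I →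
      ‖∑ i ∈ I, ip (h (J i)) (g (J i))‖ ^ 2 ≤ E * N * ∑ i, Helper25.HL.sq (h (J i))) (J : Fin N → ι) :
    ‖∑ i, ip (h (J i)) (g (J i))‖ ^ 2 ≤
      (2 * (E * N + C * (Bd supp J).card)) * ∑ i, Helper25.HL.sq (h (J i)) := by
  classical
  have h1 := hE J _ (good supp J)
  have h2 : ‖∑ i ∈ Bd supp J, ip (h (J i)) (g (J i))‖ ^ 2 ≤
      C * (Bd supp J).card * ∑ i, Helper25.HL.sq (h (J i)) := by
    have a1 : ‖∑ i ∈ Bd supp J, ip (h (J i)) (g (J i))‖ ≤
        ∑ i ∈ Bd supp J, Real.sqrt (Helper25.HL.sq (h (J i))) * Real.sqrt (Helper25.HL.sq (g (J i))) :=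
      (norm_sum_le _ _).trans (Finset.sum_le_sum fun i _ => ip_le _ _)
    have a2 : (∑ i ∈ Bd supp J, Real.sqrt (Helper25.HL.sq (h (J i))) * Real.sqrt (Helper25.HL.sq (g (J i)))) ^ 2 ≤
        (∑ i ∈ Bd supp J, Helper25.HL.sq (h (J i))) * ∑ i ∈ Bd supp J, Helper25.HL.sq (g (J i)) := by
      have a3 := Finset.sum_mul_sq_le_sq_mul_sq (Bd supp J)
        (fun i => Real.sqrt (Helper25.HL.sq (h (J i)))) (fun i => Real.sqrt (Helper25.HL.sq (g (J i))))
      refine a3.trans (le_of_eq ?_)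
      congr 1
      · exact Finset.sum_congr rfl fun i _ => Real.sq_sqrt (sq_nonneg' _)
      · exact Finset.sum_congr rfl fun i _ => Real.sq_sqrt (sq_nonneg' _)
    have a4 : ∑ i ∈ Bd supp J, Helper25.HL.sq (h (J i)) ≤ ∑ i, Helper25.HL.sq (h (J i)) :=
      Finset.sum_le_univ_sum_of_nonneg fun i => sq_nonneg' _
    have a5 : ∑ i ∈ Bd supp J, Helper25.HL.sq (g (J i)) ≤ C * (Bd supp J).card := by
      refine (Finset.sum_le_sum fun i _ => hC (J i)).trans (le_of_eq ?_)
      rw [Finset.sum_const, nsmul_eq_mul, mul_comm]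
    calc ‖∑ i ∈ Bd supp J, ip (h (J i)) (g (J i))‖ ^ 2
        ≤ (∑ i ∈ Bd supp J, Real.sqrt (Helper25.HL.sq (h (J i))) * Real.sqrt (Helper25.HL.sq (g (J i)))) ^ 2 :=
          pow_le_pow_left₀ (norm_nonneg _) a1 2
      _ ≤ (∑ i ∈ Bd supp J, Helper25.HL.sq (h (J i))) * ∑ i ∈ Bd supp J, Helper25.HL.sq (g (J i)) := a2
      _ ≤ (∑ i, Helper25.HL.sq (h (J i))) * (C * (Bd supp J).card) :=
          mul_le_mul a4 a5 (Finset.sum_nonneg fun i _ => sq_nonneg' _)
            (Finset.sum_nonneg fun i _ => sq_nonneg' _)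
      _ = C * (Bd supp J).card * ∑ i, Helper25.HL.sq (h (J i)) := by ring
  have h3 : ∑ i, ip (h (J i)) (g (J i)) =
      ∑ i ∈ (Bd supp J)ᶜ, ip (h (J i)) (g (J i)) + ∑ i ∈ Bd supp J, ip (h (J i)) (g (J i)) :=
    (Finset.sum_compl_add_sum _ _).symm
  rw [h3]
  have h4 := norm_add_le (∑ i ∈ (Bd supp J)ᶜ, ip (h (J i)) (g (J i)))
    (∑ i ∈ Bd supp J, ip (h (J i)) (g (J i)))
  have h5 := pow_le_pow_left₀ (norm_nonneg _) h4 2
  nlinarith [sq_nonneg (‖∑ i ∈ (Bd supp J)ᶜ, ip (h (J i)) (g (J i))‖ -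
    ‖∑ i ∈ Bd supp J, ip (h (J i)) (g (J i))‖)]

theorem ex_bad (p : ι → ℝ) (hp : ∀ j, 0 ≤ p j) (h1 : ∑ j, p j = 1)
    (supp : ι → Finset (Fin q)) (s : ℕ) (η : ℝ) (hη : 0 ≤ η) (hs : ∀ j, (supp j).card ≤ s)
    (ht : ∀ t, ∑ j, (if t ∈ supp j then p j else 0) ≤ η) :
    ∑ J : Fin N → ι, wt p J * ((Bd supp J).card : ℝ) ≤ (N : ℝ) ^ 2 * (s * η) := by
  classical
  have hrow : ∀ a, ∑ b, p b * (if ¬ Disjoint (supp a) (supp b) then (1 : ℝ) else 0) ≤ s * η := by
    intro a
    calc ∑ b, p b * (if ¬ Disjoint (supp a) (supp b) then (1 : ℝ) else 0)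
        ≤ ∑ b, ∑ t ∈ supp a, (if t ∈ supp b then p b else 0) := by
          refine Finset.sum_le_sum fun b _ => ?_
          by_cases hd : Disjoint (supp a) (supp b)
          · rw [if_neg (not_not.2 hd), mul_zero]
            exact Finset.sum_nonneg fun t _ => by
              split_ifs
              · exact hp b
              · exact le_rfl
          · rw [if_pos hd, mul_one]
            obtain ⟨t, h2, h3⟩ := Finset.not_disjoint_iff.1 hd
            have h4 : (if t ∈ supp b then p b else 0) ≤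
                ∑ t ∈ supp a, (if t ∈ supp b then p b else 0) :=
              Finset.single_le_sum (f := fun t => if t ∈ supp b then p b else 0) (fun t _ => by
                change 0 ≤ if t ∈ supp b then p b else 0
                split_ifs
                · exact hp b
                · exact le_rfl) h2
            rw [if_pos h3] at h4
            exact h4
      _ = ∑ t ∈ supp a, ∑ b, (if t ∈ supp b then p b else 0) := Finset.sum_comm
      _ ≤ ∑ t ∈ supp a, η := Finset.sum_le_sum fun t _ => ht t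
      _ = (supp a).card * η := by rw [Finset.sum_const, nsmul_eq_mul]
      _ ≤ s * η := by
          have := hs a
          exact mul_le_mul_of_nonneg_right (by exact_mod_cast this) hη
  have hbd : ∀ J : Fin N → ι, ((Bd supp J).card : ℝ) ≤ ∑ i, ∑ i',
      (if i ≠ i' then (if ¬ Disjoint (supp (J i)) (supp (J i')) then (1 : ℝ) else 0) else 0) := by
    intro J
    have e : ((Bd supp J).card : ℝ) = ∑ i, if i ∈ Bd supp J then (1 : ℝ) else 0 := by
      simp
    rw [e]
    refine Finset.sum_le_sum fun i _ => ?_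
    have hnn : ∀ i', (0 : ℝ) ≤
        (if i ≠ i' then (if ¬ Disjoint (supp (J i)) (supp (J i')) then (1 : ℝ) else 0) else 0) := by
      intro i'
      split_ifs <;> norm_num
    by_cases hi : i ∈ Bd supp J
    · rw [if_pos hi]
      obtain ⟨-, i', h2, h3⟩ := Finset.mem_filter.1 hi
      have h4 := Finset.single_le_sum (f := fun i' =>
        (if i ≠ i' then (if ¬ Disjoint (supp (J i)) (supp (J i')) then (1 : ℝ) else 0) else 0))
        (fun i' _ => hnn i') (Finset.mem_univ i')
      rw [if_pos h2, if_pos h3] at h4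
      exact h4
    · rw [if_neg hi]
      exact Finset.sum_nonneg fun i' _ => hnn i'
  calc ∑ J : Fin N → ι, wt p J * ((Bd supp J).card : ℝ)
      ≤ ∑ J : Fin N → ι, wt p J * ∑ i, ∑ i', (if i ≠ i' then
          (if ¬ Disjoint (supp (J i)) (supp (J i')) then (1 : ℝ) else 0) else 0) :=
        Finset.sum_le_sum fun J _ => mul_le_mul_of_nonneg_left (hbd J) (wt_nonneg p hp J)
    _ = ∑ i : Fin N, ∑ i' : Fin N, ∑ J : Fin N → ι, wt p J * (if i ≠ i' then
          (if ¬ Disjoint (supp (J i)) (supp (J i')) then (1 : ℝ) else 0) else 0) := by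
        rw [Finset.sum_congr rfl fun J _ => Finset.mul_sum _ _ _, Finset.sum_comm]
        refine Finset.sum_congr rfl fun i _ => ?_
        rw [Finset.sum_congr rfl fun J _ => Finset.mul_sum _ _ _, Finset.sum_comm]
    _ ≤ ∑ i : Fin N, ∑ i' : Fin N, (s * η : ℝ) := by
        refine Finset.sum_le_sum fun i _ => Finset.sum_le_sum fun i' _ => ?_
        by_cases hi : i = i'
        · simp only [hi, ne_eq, not_true_eq_false, if_false, mul_zero, Finset.sum_const_zero]
          positivity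
        · simp only [ne_eq, hi, not_false_eq_true, if_true]
          rw [ex2 p h1 i i' hi (fun a b => if ¬ Disjoint (supp a) (supp b) then (1 : ℝ) else 0)]
          calc ∑ a, ∑ b, p a * p b * (if ¬ Disjoint (supp a) (supp b) then (1 : ℝ) else 0)
              = ∑ a, p a * ∑ b, p b * (if ¬ Disjoint (supp a) (supp b) then (1 : ℝ) else 0) := by
                refine Finset.sum_congr rfl fun a _ => ?_
                rw [Finset.mul_sum]
                exact Finset.sum_congr rfl fun b _ => by ring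
            _ ≤ ∑ a, p a * (s * η) :=
                Finset.sum_le_sum fun a _ => mul_le_mul_of_nonneg_left (hrow a) (hp a)
            _ = s * η := by rw [← Finset.sum_mul, h1, one_mul]
    _ = (N : ℝ) ^ 2 * (s * η) := by
        simp only [Finset.sum_const, Finset.card_univ, Fintype.card_fin, nsmul_eq_mul]
        ring

theorem sa2_norm (hN : 1 ≤ N) (p : ι → ℝ) (hp : ∀ j, 0 ≤ p j) (h1 : ∑ j, p j = 1)
    (supp : ι → Finset (Fin q)) (s : ℕ) (η C E : ℝ) (hη : 0 ≤ η) (hC0 : 0 ≤ C) (hE0 : 0 ≤ E)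
    (hs : ∀ j, (supp j).card ≤ s) (ht : ∀ t, ∑ j, (if t ∈ supp j then p j else 0) ≤ η)
    (g h : ι → τ → ℂ) (hC : ∀ j, Helper25.HL.sq (g j) ≤ C)
    (hE : ∀ (J : Fin N → ι) (I : Finset (Fin N)), DisjOn supp J I →
      ‖∑ i ∈ I, ip (h (J i)) (g (J i))‖ ^ 2 ≤ E * N * ∑ i, Helper25.HL.sq (h (J i))) :
    ‖∑ j, p j • ip (h j) (g j)‖ ^ 2 ≤ 2 * (E + C * N * s * η) * ∑ j, p j * Helper25.HL.sq (h j) := by
  classical
  set A := ∑ j, p j • ip (h j) (g j) with hA
  set B := ∑ j, p j * Helper25.HL.sq (h j) with hB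
  have hB0 : 0 ≤ B := Finset.sum_nonneg fun j _ => mul_nonneg (hp j) (sq_nonneg' _)
  have eA : ∑ J : Fin N → ι, wt p J • ∑ i, ip (h (J i)) (g (J i)) = (N : ℂ) * A := by
    rw [Finset.sum_congr rfl fun J _ => Finset.smul_sum, Finset.sum_comm]
    rw [Finset.sum_congr rfl fun i _ => ex1 p h1 i (fun j => ip (h j) (g j))]
    simp [hA]
  have eB : ∑ J : Fin N → ι, wt p J * ∑ i, Helper25.HL.sq (h (J i)) = (N : ℝ) * B := by
    rw [Finset.sum_congr rfl fun J _ => Finset.mul_sum _ _ _, Finset.sum_comm]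
    have e : ∀ i : Fin N, ∑ J : Fin N → ι, wt p J * Helper25.HL.sq (h (J i)) = B := fun i =>
      ex1 p h1 i (fun j => Helper25.HL.sq (h j))
    rw [Finset.sum_congr rfl fun i _ => e i]
    simp
  have eW : ∑ J : Fin N → ι, wt p J * (2 * (E * N + C * (Bd supp J).card)) ≤
      2 * (E * N + C * ((N : ℝ) ^ 2 * (s * η))) := by
    have e : ∀ J : Fin N → ι, wt p J * (2 * (E * N + C * (Bd supp J).card)) =
        2 * (E * N) * wt p J + 2 * C * (wt p J * ((Bd supp J).card : ℝ)) := fun J => by ring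
    rw [Finset.sum_congr rfl fun J _ => e J, Finset.sum_add_distrib, ← Finset.mul_sum,
      ← Finset.mul_sum, sum_wt p h1]
    have h2 := ex_bad (N := N) p hp h1 supp s η hη hs ht
    have h3 := mul_le_mul_of_nonneg_left h2 (by positivity : (0 : ℝ) ≤ 2 * C)
    linarith
  have hbound : ‖(N : ℂ) * A‖ ^ 2 ≤
      (2 * (E * N + C * ((N : ℝ) ^ 2 * (s * η)))) * ((N : ℝ) * B) := by
    have hnn : ∀ J : Fin N → ι, 0 ≤ 2 * (E * N + C * ((Bd supp J).card : ℝ)) := fun J => by
      positivity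
    have hH : ∀ J : Fin N → ι, 0 ≤ ∑ i, Helper25.HL.sq (h (J i)) := fun J =>
      Finset.sum_nonneg fun i _ => sq_nonneg' _
    have b1 : ‖(N : ℂ) * A‖ ≤ ∑ J : Fin N → ι,
        Real.sqrt (wt p J * (2 * (E * N + C * (Bd supp J).card))) *
          Real.sqrt (wt p J * ∑ i, Helper25.HL.sq (h (J i))) := by
      rw [← eA]
      refine (norm_sum_le _ _).trans (Finset.sum_le_sum fun J _ => ?_)
      have hw := wt_nonneg p hp J
      rw [norm_smul, Real.norm_of_nonneg hw, ← Real.sqrt_mul (mul_nonneg hw (hnn J))]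
      apply Real.le_sqrt_of_sq_le
      have h2 := pointwise supp C E g h hC hE J
      calc (wt p J * ‖∑ i, ip (h (J i)) (g (J i))‖) ^ 2
          = wt p J * wt p J * ‖∑ i, ip (h (J i)) (g (J i))‖ ^ 2 := by ring
        _ ≤ wt p J * wt p J *
            ((2 * (E * N + C * (Bd supp J).card)) * ∑ i, Helper25.HL.sq (h (J i))) :=
            mul_le_mul_of_nonneg_left h2 (mul_nonneg hw hw)
        _ = _ := by ring
    have b2 := Finset.sum_mul_sq_le_sq_mul_sq (Finset.univ : Finset (Fin N → ι))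
      (fun J => Real.sqrt (wt p J * (2 * (E * N + C * (Bd supp J).card))))
      (fun J => Real.sqrt (wt p J * ∑ i, Helper25.HL.sq (h (J i))))
    have b3 : ∑ J : Fin N → ι, Real.sqrt (wt p J * (2 * (E * N + C * (Bd supp J).card))) ^ 2 =
        ∑ J : Fin N → ι, wt p J * (2 * (E * N + C * (Bd supp J).card)) :=
      Finset.sum_congr rfl fun J _ =>
        Real.sq_sqrt (mul_nonneg (wt_nonneg p hp J) (hnn J))
    have b4 : ∑ J : Fin N → ι, Real.sqrt (wt p J * ∑ i, Helper25.HL.sq (h (J i))) ^ 2 = (N : ℝ) * B := by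
      rw [← eB]
      exact Finset.sum_congr rfl fun J _ =>
        Real.sq_sqrt (mul_nonneg (wt_nonneg p hp J) (hH J))
    rw [b3, b4] at b2
    refine (pow_le_pow_left₀ (norm_nonneg _) b1 2).trans (b2.trans ?_)
    exact mul_le_mul_of_nonneg_right eW (mul_nonneg (Nat.cast_nonneg _) hB0)
  rw [norm_mul, Complex.norm_natCast, mul_pow] at hbound
  have hNp : (0 : ℝ) < (N : ℝ) ^ 2 := by
    have : (0 : ℝ) < N := by exact_mod_cast hN
    positivity
  have hfin : (N : ℝ) ^ 2 * ‖A‖ ^ 2 ≤ (N : ℝ) ^ 2 * (2 * (E + C * N * s * η) * B) :=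
    hbound.trans (le_of_eq (by ring))
  exact le_of_mul_le_mul_left hfin hNp

end main

/-- SA2: sampling, bilinear expressions -/
theorem sa2 : S_SA2 := by
  classical
  intro ι τ _ _ q N s ϖ supp η C K E g h hN hϖ hK hs ht hC0 hE0 hη hC hE
  set K0 := ∑ j, ϖ j with hK0
  have hK0n : 0 ≤ K0 := Finset.sum_nonneg fun j _ => hϖ j
  have hB0 : 0 ≤ ∑ j, ϖ j * Helper25.HL.sq (h j) :=
    Finset.sum_nonneg fun j _ => mul_nonneg (hϖ j) (sq_nonneg' _)
  have hmono : 2 * (K0 * E + C * N * s * η) * ∑ j, ϖ j * Helper25.HL.sq (h j) ≤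
      2 * (K * E + C * N * s * η) * ∑ j, ϖ j * Helper25.HL.sq (h j) := by
    apply mul_le_mul_of_nonneg_right _ hB0
    have := mul_le_mul_of_nonneg_right hK hE0
    linarith
  refine le_trans ?_ hmono
  rcases hK0n.eq_or_lt with h0 | hpos
  · have hz : ∀ j, ϖ j = 0 := by
      intro j
      have := (Finset.sum_eq_zero_iff_of_nonneg fun j _ => hϖ j).1 (hK0.symm.trans h0.symm)
      exact this j (Finset.mem_univ j)
    simp [hz]
  · have h1 : ∑ j, ϖ j / K0 = 1 := by
      rw [← Finset.sum_div, ← hK0, div_self hpos.ne']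
    have ht' : ∀ t, ∑ j, (if t ∈ supp j then ϖ j / K0 else 0) ≤ η / K0 := by
      intro t
      have e : ∀ j, (if t ∈ supp j then ϖ j / K0 else 0) =
          (if t ∈ supp j then ϖ j else 0) / K0 := by
        intro j
        split_ifs <;> simp
      rw [Finset.sum_congr rfl fun j _ => e j, ← Finset.sum_div]
      exact div_le_div_of_nonneg_right (ht t) hpos.le
    have h2 := sa2_norm hN (fun j => ϖ j / K0) (fun j => div_nonneg (hϖ j) hpos.le) h1 supp s
      (η / K0) C E (div_nonneg hη hpos.le) hC0 hE0 hs ht' g h hC hE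
    have e1 : ∑ j, (ϖ j : ℂ) * ip (h j) (g j) =
        (K0 : ℂ) * ∑ j, (ϖ j / K0) • ip (h j) (g j) := by
      rw [Finset.mul_sum]
      refine Finset.sum_congr rfl fun j _ => ?_
      rw [Complex.real_smul, Complex.ofReal_div]
      have : (K0 : ℂ) ≠ 0 := Complex.ofReal_ne_zero.2 hpos.ne'
      field_simp
    have e2 : ∑ j, ϖ j / K0 * Helper25.HL.sq (h j) = (∑ j, ϖ j * Helper25.HL.sq (h j)) / K0 := by
      rw [Finset.sum_div]
      exact Finset.sum_congr rfl fun j _ => by ring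
    rw [e1, norm_mul, mul_pow, Complex.norm_real, Real.norm_of_nonneg hpos.le]
    rw [e2] at h2
    calc K0 ^ 2 * ‖∑ j, (ϖ j / K0) • ip (h j) (g j)‖ ^ 2
        ≤ K0 ^ 2 * (2 * (E + C * N * s * (η / K0)) * ((∑ j, ϖ j * Helper25.HL.sq (h j)) / K0)) :=
          mul_le_mul_of_nonneg_left h2 (by positivity)
      _ = 2 * (K0 * E + C * N * s * η) * ∑ j, ϖ j * Helper25.HL.sq (h j) := by
          field_simp

end Pool.Agent.Helper70.HL
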